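import Pool.Agent.Disp71.Pos

namespace Pool.Agent.Disp71

open Matrix Finset

variable {n : ℕ}

/-- order embeddings and their images -/
lemma prod_eq_cc (A : Matrix (Fin n) (Fin n) ℝ) {k : ℕ} (α β : Fin k ↪o Fin n) :
    (A.submatrix α β).det * (A.submatrix β α).det =
      cc A (Finset.univ.map α.toEmbedding) (Finset.univ.map β.toEmbedding) := by
  let e : ∀ γ : Fin k ↪o Fin n, Fin k ≃ (Finset.univ.map γ.toEmbedding : Finset (Fin n)) :=
    fun γ => Equiv.ofBijective (fun i => ⟨γ i, by simp⟩) (by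
      constructor
      · intro a b h
        simpa using h
      · rintro ⟨x, hx⟩
        simp only [Finset.mem_map, Finset.mem_univ, true_and] at hx
        obtain ⟨a, ha⟩ := hx
        exact ⟨a, Subtype.ext ha⟩)
  rw [cc_eq A _ _ (e α) (e β)]
  rfl

/-- Schur complement entry -/
noncomputable def sc (A : Matrix (Fin n) (Fin n) ℝ) (γ : Finset (Fin n)) (a b : Fin n) : ℝ :=
  A a b - ∑ k : γ, ∑ l : γ,
    A a k * ((A.submatrix (Subtype.val : γ → Fin n) (Subtype.val : γ → Fin n))⁻¹) k l * A l b

lemma det_block {κ : Type*} [Fintype κ] [DecidableEq κ] (A : Matrix (Fin n) (Fin n) ℝ)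
    (γ : Finset (Fin n)) (hγ : pm A γ ≠ 0) (f g : κ → Fin n) :
    (A.submatrix (Sum.elim (Subtype.val : γ → Fin n) f) (Sum.elim (Subtype.val : γ → Fin n) g)).det =
      pm A γ * (Matrix.of fun a b => sc A γ (f a) (g b)).det := by
  set G := A.submatrix (Subtype.val : γ → Fin n) (Subtype.val : γ → Fin n) with hG
  have hu : IsUnit G.det := isUnit_iff_ne_zero.mpr hγ
  let _ : Invertible G := G.invertibleOfIsUnitDet hu
  have h1 : A.submatrix (Sum.elim (Subtype.val : γ → Fin n) f)
      (Sum.elim (Subtype.val : γ → Fin n) g) =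
      fromBlocks G (A.submatrix (Subtype.val : γ → Fin n) g) (A.submatrix f (Subtype.val : γ → Fin n))
        (A.submatrix f g) := by
    ext (i | i) (j | j) <;> simp [hG]
  rw [h1, det_fromBlocks₁₁]
  have h2 : G.det = pm A γ := rfl
  rw [h2]
  congr 2
  ext a b
  rw [invOf_eq_nonsing_inv]
  simp only [Matrix.sub_apply, Matrix.mul_apply, submatrix_apply, of_apply, sc]
  congr 1
  rw [Finset.sum_comm]
  refine Finset.sum_congr rfl fun k _ => ?_
  rw [Finset.sum_mul]

/-- enumeration of `insert a γ` -/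
noncomputable def enumIns (γ : Finset (Fin n)) (a : Fin n) (ha : a ∉ γ) :
    (γ ⊕ Unit) ≃ (insert a γ : Finset (Fin n)) :=
  Equiv.ofBijective (Sum.elim (fun i => ⟨i, Finset.mem_insert_of_mem i.2⟩)
    (fun _ => ⟨a, Finset.mem_insert_self _ _⟩)) (by
    constructor
    · rintro (i | i) (j | j) h
      · simp at h; exact congrArg _ h
      · simp at h; exact absurd (h ▸ i.2) ha
      · simp at h; exact absurd (h ▸ j.2) ha
      · rfl
    · rintro ⟨x, hx⟩
      rcases Finset.mem_insert.mp hx with h | h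
      · exact ⟨Sum.inr (), Subtype.ext h.symm⟩
      · exact ⟨Sum.inl ⟨x, h⟩, rfl⟩)

lemma enumIns_val (γ : Finset (Fin n)) (a : Fin n) (ha : a ∉ γ) :
    (fun i => (enumIns γ a ha i : Fin n)) = Sum.elim (Subtype.val : γ → Fin n) (fun _ => a) := by
  funext i
  rcases i with i | i <;> rfl

lemma pm_enum {κ : Type*} [Fintype κ] [DecidableEq κ] (A : Matrix (Fin n) (Fin n) ℝ)
    (s : Finset (Fin n)) (e : κ ≃ s) :
    pm A s = (A.submatrix (fun i => (e i : Fin n)) (fun i => (e i : Fin n))).det := by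
  rw [pm, ← det_submatrix_equiv_self e]
  rfl

lemma pm_insert (A : Matrix (Fin n) (Fin n) ℝ) (γ : Finset (Fin n)) (hγ : pm A γ ≠ 0)
    (a : Fin n) (ha : a ∉ γ) : pm A (insert a γ) = pm A γ * sc A γ a a := by
  rw [pm_enum A _ (enumIns γ a ha), enumIns_val, det_block A γ hγ]
  congr 1
  simp [det_unique]

lemma cc_insert (A : Matrix (Fin n) (Fin n) ℝ) (γ : Finset (Fin n)) (hγ : pm A γ ≠ 0)
    (a b : Fin n) (ha : a ∉ γ) (hb : b ∉ γ) :
    cc A (insert a γ) (insert b γ) = pm A γ * sc A γ a b * (pm A γ * sc A γ b a) := by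
  rw [cc_eq A _ _ (enumIns γ a ha) (enumIns γ b hb), enumIns_val, enumIns_val,
    det_block A γ hγ, det_block A γ hγ]
  simp [det_unique]

/-- enumeration of `insert a (insert b γ)` -/
noncomputable def enumIns2 (γ : Finset (Fin n)) (a b : Fin n) (ha : a ∉ γ) (hb : b ∉ γ)
    (hab : a ≠ b) : (γ ⊕ Fin 2) ≃ (insert a (insert b γ) : Finset (Fin n)) :=
  Equiv.ofBijective (Sum.elim (fun i => ⟨i, Finset.mem_insert_of_mem (Finset.mem_insert_of_mem i.2)⟩)
    (fun t => ⟨![a, b] t, by fin_cases t <;> simp⟩)) (by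
    constructor
    · rintro (i | i) (j | j) h
      · simp at h; exact congrArg _ h
      · exfalso
        have h' : (i : Fin n) = ![a, b] j := congrArg Subtype.val h
        fin_cases j
        · exact ha (by have := i.2; rw [h'] at this; simpa using this)
        · exact hb (by have := i.2; rw [h'] at this; simpa using this)
      · exfalso
        have h' : ![a, b] i = (j : Fin n) := congrArg Subtype.val h
        fin_cases i
        · exact ha (by have := j.2; rw [← h'] at this; simpa using this)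
        · exact hb (by have := j.2; rw [← h'] at this; simpa using this)
      · have h' : ![a, b] i = ![a, b] j := congrArg Subtype.val h
        fin_cases i <;> fin_cases j
        · rfl
        · exact absurd h' hab
        · exact absurd h'.symm hab
        · rfl
    · rintro ⟨x, hx⟩
      rcases Finset.mem_insert.mp hx with h | h
      · exact ⟨Sum.inr 0, Subtype.ext h.symm⟩
      · rcases Finset.mem_insert.mp h with h | h
        · exact ⟨Sum.inr 1, Subtype.ext h.symm⟩
        · exact ⟨Sum.inl ⟨x, h⟩, rfl⟩)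

lemma pm_insert2 (A : Matrix (Fin n) (Fin n) ℝ) (γ : Finset (Fin n)) (hγ : pm A γ ≠ 0)
    (a b : Fin n) (ha : a ∉ γ) (hb : b ∉ γ) (hab : a ≠ b) :
    pm A (insert a (insert b γ)) =
      pm A γ * (sc A γ a a * sc A γ b b - sc A γ a b * sc A γ b a) := by
  rw [pm_enum A _ (enumIns2 γ a b ha hb hab)]
  have : (fun i => (enumIns2 γ a b ha hb hab i : Fin n)) =
      Sum.elim (Subtype.val : γ → Fin n) ![a, b] := by
    funext i
    rcases i with i | i <;> rfl
  rw [this, det_block A γ hγ, det_fin_two]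
  simp

/-- the identity `A[γi,γj] A[γj,γi] = A[γi] A[γj] - A[γ] A[γij]` -/
lemma cc_insert' (A : Matrix (Fin n) (Fin n) ℝ) (γ : Finset (Fin n)) (hγ : pm A γ ≠ 0)
    (a b : Fin n) (ha : a ∉ γ) (hb : b ∉ γ) (hab : a ≠ b) :
    cc A (insert a γ) (insert b γ) =
      pm A (insert a γ) * pm A (insert b γ) - pm A γ * pm A (insert a (insert b γ)) := by
  rw [cc_insert A γ hγ a b ha hb, pm_insert A γ hγ a ha, pm_insert A γ hγ b hb,
    pm_insert2 A γ hγ a b ha hb hab]
  ring

/-- criterion for `(S_1)` -/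
theorem condS_one {A : Matrix (Fin n) (Fin n) ℝ} (hP : ∀ s, 0 < pm A s)
    (h : ∀ (γ : Finset (Fin n)) (a b : Fin n), a ∉ γ → b ∉ γ → a ≠ b →
      pm A γ * pm A (insert a (insert b γ)) ≤ pm A (insert a γ) * pm A (insert b γ)) :
    CondS 1 A := by
  intro k α β hd
  rw [prod_eq_cc]
  set S := Finset.univ.map α.toEmbedding with hS
  set T := Finset.univ.map β.toEmbedding with hT
  have hcS : S.card = k := by rw [hS, Finset.card_map, Finset.card_univ, Fintype.card_fin]
  have hcT : T.card = k := by rw [hT, Finset.card_map, Finset.card_univ, Fintype.card_fin]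
  have hcom : common α β = (S ∩ T).card := rfl
  rw [hcom] at hd
  have hle1 : (S ∩ T).card ≤ k := hcS ▸ Finset.card_le_card Finset.inter_subset_left
  rcases Nat.eq_or_lt_of_le hle1 with heq | hlt
  · have h1 : S ∩ T = S := Finset.eq_of_subset_of_card_le Finset.inter_subset_left (by omega)
    have h2 : S ∩ T = T := Finset.eq_of_subset_of_card_le Finset.inter_subset_right (by omega)
    have : S = T := by rw [← h1, h2]
    rw [← this, cc_self]
    positivity
  · set γ := S ∩ T with hγ
    have hcard : γ.card + 1 = k := by omega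
    obtain ⟨a, ha1, ha2⟩ : ∃ a, a ∉ γ ∧ insert a γ = S := by
      have := Finset.exists_eq_insert_iff.mpr ⟨Finset.inter_subset_left, (by rw [hcS]; exact hcard)⟩
      obtain ⟨a, ha, hh⟩ := this
      exact ⟨a, ha, hh⟩
    obtain ⟨b, hb1, hb2⟩ : ∃ b, b ∉ γ ∧ insert b γ = T := by
      have := Finset.exists_eq_insert_iff.mpr ⟨Finset.inter_subset_right, (by rw [hcT]; exact hcard)⟩
      obtain ⟨a, ha, hh⟩ := this
      exact ⟨a, ha, hh⟩
    have hab : a ≠ b := by
      rintro rfl
      apply ha1
      rw [hγ, ← ha2, ← hb2]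
      simp
    rw [← ha2, ← hb2, cc_insert' A γ (hP γ).ne' a b ha1 hb1 hab]
    have := h γ a b ha1 hb1 hab
    linarith

end Pool.Agent.Disp71
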