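import Mathlib

/-!
Definitions for the dispersal problem (P-matrices, condition `(S_d)`, stability, `d(n)`).
-/

namespace Pool.Agent.Disp71

open Matrix Finset

/-- `A` is a `P`-matrix: all its principal minors are positive. Minors are taken along increasing
sequences of indices, that is, order embeddings `Fin k ↪o Fin n`. -/
def IsP {n : ℕ} (A : Matrix (Fin n) (Fin n) ℝ) : Prop :=
  ∀ (k : ℕ) (α : Fin k ↪o Fin n), 0 < (A.submatrix α α).det

/-- `A` is (positive) stable: every complex eigenvalue of `A` has positive real part. -/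
def IsStable {n : ℕ} (A : Matrix (Fin n) (Fin n) ℝ) : Prop :=
  ∀ (μ : ℂ) (v : Fin n → ℂ), v ≠ 0 → (A.map (algebraMap ℝ ℂ)).mulVec v = μ • v → 0 < μ.re

/-- The number of common values of two increasing sequences, `#(α ∩ β)`. -/
def common {n k : ℕ} (α β : Fin k ↪o Fin n) : ℕ :=
  ((Finset.univ.map α.toEmbedding) ∩ (Finset.univ.map β.toEmbedding)).card

/-- Condition `(S_d)`: `A[α,β] A[β,α] ≥ 0` whenever the dispersal `#α - #(α ∩ β)` is at most `d`. -/
def CondS {n : ℕ} (d : ℕ) (A : Matrix (Fin n) (Fin n) ℝ) : Prop :=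
  ∀ (k : ℕ) (α β : Fin k ↪o Fin n), k - common α β ≤ d →
    0 ≤ (A.submatrix α β).det * (A.submatrix β α).det

/-- `d(n)`: the least `d ∈ {1, …, n}` such that every `P`-matrix of order `n` with `(S_d)` is
stable. -/
noncomputable def dNum (n : ℕ) : ℕ :=
  sInf {d : ℕ | 1 ≤ d ∧ d ≤ n ∧
    ∀ A : Matrix (Fin n) (Fin n) ℝ, IsP A → CondS d A → IsStable A}

end Pool.Agent.Disp71
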