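import Pool.Agent.Disp71.Defs

namespace Pool.Agent.Disp71

open Matrix Finset

variable {ι κ R : Type*} [Fintype ι] [DecidableEq ι] [Fintype κ] [DecidableEq κ] [CommRing R]

/-- `det (1 + M)` is the sum of the principal minors. -/
lemma det_one_add_eq (M : Matrix ι ι R) :
    (1 + M).det = ∑ s : Finset ι, (M.submatrix (Subtype.val : s → ι) Subtype.val).det := by
  have h := (Matrix.detRowAlternating : (ι → R) [⋀^ι]→ₗ[R] R).toMultilinearMap.map_add_univ
    (fun i => M i) (fun i => (1 : Matrix ι ι R) i)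
  have e : (1 + M).det = (Matrix.detRowAlternating : (ι → R) [⋀^ι]→ₗ[R] R)
      ((fun i => M i) + fun i => (1 : Matrix ι ι R) i) := by
    rw [add_comm]; rfl
  rw [e]
  refine h.trans (Finset.sum_congr rfl fun s _ => ?_)
  rw [← det_piecewise_one_eq_submatrix_det]
  rfl

lemma prod_submatrix_equiv (M N : Matrix κ κ R) (e f : ι ≃ κ) :
    (M.submatrix e f).det * (N.submatrix f e).det = M.det * N.det := by
  have h1 : (M.submatrix e f) = (M.submatrix id (e.symm.trans f)).submatrix e e := by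
    ext i j; simp
  have h2 : (N.submatrix f e) = (N.submatrix (e.symm.trans f) id).submatrix e e := by
    ext i j; simp
  rw [h1, h2, det_submatrix_equiv_self, det_submatrix_equiv_self]
  rw [Matrix.det_permute', Matrix.det_permute]
  have : ((Equiv.Perm.sign (e.symm.trans f) : ℤˣ) : R) * ((Equiv.Perm.sign (e.symm.trans f) : ℤˣ) : R) = 1 := by
    rw [← Int.cast_mul, ← Units.val_mul, Int.units_mul_self]; simp
  calc _ = (((Equiv.Perm.sign (e.symm.trans f) : ℤˣ) : R) * ((Equiv.Perm.sign (e.symm.trans f) : ℤˣ) : R))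
        * (M.det * N.det) := by ring
    _ = _ := by rw [this, one_mul]

lemma det_J : (fromBlocks (0 : Matrix ι ι R) (-1 : Matrix ι ι R) (1 : Matrix ι ι R) (0 : Matrix ι ι R)).det = 1 := by
  have h : fromBlocks (0 : Matrix ι ι R) (-1 : Matrix ι ι R) (1 : Matrix ι ι R) (0 : Matrix ι ι R) =
      fromBlocks (1 : Matrix ι ι R) (-1 : Matrix ι ι R) (0 : Matrix ι ι R) (1 : Matrix ι ι R) *
      fromBlocks (1 : Matrix ι ι R) (0 : Matrix ι ι R) (1 : Matrix ι ι R) (1 : Matrix ι ι R) *
      fromBlocks (1 : Matrix ι ι R) (-1 : Matrix ι ι R) (0 : Matrix ι ι R) (1 : Matrix ι ι R) := by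
    simp [fromBlocks_multiply]
  rw [h, det_mul, det_mul, det_fromBlocks_zero₂₁, det_fromBlocks_zero₁₂]
  simp

lemma det_anti_sq (P Q : Matrix ι ι R) :
    (fromBlocks (0 : Matrix ι ι R) (-P) Q (0 : Matrix ι ι R)).det = P.det * Q.det := by
  have h : fromBlocks (0 : Matrix ι ι R) (-P) Q (0 : Matrix ι ι R) =
      fromBlocks (0 : Matrix ι ι R) (-1 : Matrix ι ι R) (1 : Matrix ι ι R) (0 : Matrix ι ι R) *
        fromBlocks Q (0 : Matrix ι ι R) (0 : Matrix ι ι R) P := by
    simp [fromBlocks_multiply]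
  rw [h, det_mul, det_J, det_fromBlocks_zero₂₁]; ring

lemma det_anti_ne {ι κ : Type*} [Fintype ι] [DecidableEq ι] [Fintype κ] [DecidableEq κ]
    (P : Matrix ι κ ℝ) (Q : Matrix κ ι ℝ) (h : Fintype.card ι ≠ Fintype.card κ) :
    (fromBlocks 0 P Q 0).det = 0 := by
  have h1 : fromBlocks ((2:ℝ) • (1 : Matrix ι ι ℝ)) 0 0 (1 : Matrix κ κ ℝ) * fromBlocks 0 P Q 0
      = fromBlocks 0 P Q 0 * fromBlocks (1 : Matrix ι ι ℝ) 0 0 ((2:ℝ) • (1 : Matrix κ κ ℝ)) := by
    simp [fromBlocks_multiply]
  have h2 := congrArg Matrix.det h1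
  rw [det_mul, det_mul, det_fromBlocks_zero₂₁, det_fromBlocks_zero₂₁, det_smul, det_smul,
    det_one, det_one] at h2
  simp only [mul_one, one_mul] at h2
  have h3 : ((2:ℝ) ^ Fintype.card ι - 2 ^ Fintype.card κ) * (fromBlocks 0 P Q 0).det = 0 := by
    linarith
  rcases mul_eq_zero.mp h3 with h4 | h4
  · exfalso
    apply h
    have h5 : (2:ℝ) ^ Fintype.card ι = 2 ^ Fintype.card κ := by linarith
    exact pow_right_injective₀ (by norm_num) (by norm_num) h5
  · exact h4

section

variable {n : ℕ}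

/-- The product `A[α,β] A[β,α]` (and `0` when the sizes differ). -/
noncomputable def cc (A : Matrix (Fin n) (Fin n) ℝ) (α β : Finset (Fin n)) : ℝ :=
  if h : β.card = α.card then
    (A.submatrix (α.orderEmbOfFin rfl) (β.orderEmbOfFin h)).det *
      (A.submatrix (β.orderEmbOfFin h) (α.orderEmbOfFin rfl)).det
  else 0

/-- `cc` from arbitrary enumerations. -/
lemma cc_eq (A : Matrix (Fin n) (Fin n) ℝ) (α β : Finset (Fin n)) (e : ι ≃ α) (f : ι ≃ β) :
    cc A α β = (A.submatrix (fun i => (e i : Fin n)) (fun i => (f i : Fin n))).det *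
      (A.submatrix (fun i => (f i : Fin n)) (fun i => (e i : Fin n))).det := by
  have hcard : β.card = α.card := by
    rw [← Fintype.card_coe, ← Fintype.card_coe, ← Fintype.card_congr e, ← Fintype.card_congr f]
  have h := prod_submatrix_equiv
    (A.submatrix (α.orderEmbOfFin rfl) (β.orderEmbOfFin hcard))
    (A.submatrix (β.orderEmbOfFin hcard) (α.orderEmbOfFin rfl))
    (e.trans (α.orderIsoOfFin rfl).symm.toEquiv) (f.trans (β.orderIsoOfFin hcard).symm.toEquiv)
  rw [cc, dif_pos hcard, ← h]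
  congr 2
  · ext i j
    simp [← Finset.coe_orderIsoOfFin_apply]
  · ext i j
    simp [← Finset.coe_orderIsoOfFin_apply]

lemma cc_of_card_ne (A : Matrix (Fin n) (Fin n) ℝ) (α β : Finset (Fin n)) (h : β.card ≠ α.card) :
    cc A α β = 0 := by rw [cc, dif_neg h]

/-- `det (1 + B²)` as the sum of all `B[α,β] B[β,α]`. -/
lemma det_one_add_sq (B : Matrix (Fin n) (Fin n) ℝ) :
    (1 + B * B).det = ∑ α : Finset (Fin n), ∑ β : Finset (Fin n), cc B α β := by
  have h0 : (1 + B * B).det = (1 + fromBlocks 0 (-B) B 0).det := by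
    have : (1 + fromBlocks 0 (-B) B 0 : Matrix (Fin n ⊕ Fin n) (Fin n ⊕ Fin n) ℝ)
        = fromBlocks 1 (-B) B 1 := by
      rw [← fromBlocks_one, fromBlocks_add]; simp
    rw [this, det_fromBlocks_one₁₁]
    congr 1
    simp
  rw [h0, det_one_add_eq, ← Finset.sum_product', Finset.univ_product_univ]
  rw [← Equiv.sum_comp (Finset.sumEquiv (α := Fin n) (β := Fin n)).symm.toEquiv]
  refine Finset.sum_congr rfl fun s _ => ?_
  obtain ⟨α, β⟩ := s
  let e : α ⊕ β ≃ (α.disjSum β : Finset (Fin n ⊕ Fin n)) :=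
    Equiv.ofBijective (Sum.elim (fun a => ⟨Sum.inl a, by simp⟩) (fun b => ⟨Sum.inr b, by simp⟩)) (by
      constructor
      · rintro (a | a) (b | b) h
        · simp at h; exact congrArg _ h
        · simp at h
        · simp at h
        · simp at h; exact congrArg _ h
      · rintro ⟨x | x, hx⟩
        · simp at hx; exact ⟨Sum.inl ⟨x, hx⟩, rfl⟩
        · simp at hx; exact ⟨Sum.inr ⟨x, hx⟩, rfl⟩)
  change ((fromBlocks 0 (-B) B 0).submatrix
    (Subtype.val : ↥(α.disjSum β) → Fin n ⊕ Fin n) Subtype.val).det = cc B α β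
  rw [← det_submatrix_equiv_self e]
  have h1 : ((fromBlocks 0 (-B) B 0).submatrix
      (Subtype.val : ↥(α.disjSum β) → Fin n ⊕ Fin n) Subtype.val).submatrix e e
      = fromBlocks 0 (-(B.submatrix (Subtype.val : α → _) (Subtype.val : β → _)))
        (B.submatrix (Subtype.val : β → _) (Subtype.val : α → _)) 0 := by
    ext (i | i) (j | j) <;> simp [e]
  rw [h1]
  by_cases h : β.card = α.card
  · let a := (α.orderIsoOfFin rfl).toEquiv
    let b := (β.orderIsoOfFin h).toEquiv
    rw [← det_submatrix_equiv_self (Equiv.sumCongr a b)]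
    have h2 : (fromBlocks 0 (-(B.submatrix (Subtype.val : α → _) (Subtype.val : β → _)))
        (B.submatrix (Subtype.val : β → _) (Subtype.val : α → _)) 0).submatrix
          (Equiv.sumCongr a b) (Equiv.sumCongr a b)
        = fromBlocks 0 (-(B.submatrix (fun i => (a i : Fin n)) (fun i => (b i : Fin n))))
          (B.submatrix (fun i => (b i : Fin n)) (fun i => (a i : Fin n))) 0 := by
      ext (i | i) (j | j) <;> simp
    rw [h2, det_anti_sq, cc_eq B α β a b]
  · rw [cc_of_card_ne B α β h, det_anti_ne]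
    simpa using Ne.symm h

end

end Pool.Agent.Disp71
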