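import Pool.Agent.Disp71.Crit

namespace Pool.Agent.Disp71

open Matrix Finset

/-- entries of the example -/
noncomputable def ent (i j : ℕ) : ℝ :=
  if i = 0 then (if j = 0 then 390625/2096 else if j < 5 then 654/655 * (390625/2096) else 0)
  else if i < 5 then
    (if j = 0 then 1 else if j = i then 1 else if i < j ∧ j < 5 then 654/655 else 0)
  else (if i = j then 1 else 0)

/-- the example of order `5 + m` -/
noncomputable def ex (m : ℕ) : Matrix (Fin (5 + m)) (Fin (5 + m)) ℝ := Matrix.of fun i j => ent i j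

/-- after row operations -/
noncomputable def ent' (i j : ℕ) : ℝ :=
  if i = 0 then ent 0 j else if i < 5 then ent i j - (2096/390625) * ent 0 j else ent i j

lemma ent_upper {i j : ℕ} (hj : j ≠ 0) (h : j < i) : ent i j = 0 := by
  unfold ent
  have h1 : i ≠ 0 := by omega
  rw [if_neg h1]
  by_cases h5 : i < 5
  · rw [if_pos h5, if_neg hj, if_neg (by omega), if_neg (by omega)]
  · rw [if_neg h5, if_neg (by omega)]

lemma ent_diag {i : ℕ} (h : i ≠ 0) : ent i i = 1 := by
  unfold ent
  rw [if_neg h]
  split_ifs <;> first | rfl | (exfalso; omega)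

/-- the final lower triangular entries -/
noncomputable def ent'' (i j : ℕ) : ℝ :=
  if i = 0 then (if j = 0 then 390625/2096 else 0) else ent' i j

lemma ent'_col (i : ℕ) (h : i ≠ 0) : ent' i 0 = 0 := by
  unfold ent' ent
  rw [if_neg h, if_neg h]
  split_ifs <;> first | (exfalso; omega) | norm_num

lemma ent''_lower {i j : ℕ} (h : i < j) : ent'' i j = 0 := by
  unfold ent''
  by_cases hi : i = 0
  · rw [if_pos hi, if_neg (by omega)]
  · rw [if_neg hi]
    unfold ent' ent
    split_ifs <;> first | (exfalso; omega) | norm_num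

lemma ent''_diag_pos (i : ℕ) : 0 < ent'' i i := by
  unfold ent'' ent' ent
  split_ifs <;> first | (exfalso; omega) | norm_num

/-- diagonal values -/
lemma ent''_diag (i : ℕ) : ent'' i i = if i = 0 then 390625/2096 else if i < 5 then 1/655 else 1 := by
  unfold ent'' ent' ent
  split_ifs <;> first | (exfalso; omega) | norm_num

variable (m : ℕ)

lemma pm_ex_zero (s : Finset (Fin (5 + m))) (h : ∀ i ∈ s, (i : ℕ) ≠ 0) : pm (ex m) s = 1 := by
  rw [pm, det_of_isUpperTriangular]
  · refine Finset.prod_eq_one fun i _ => ?_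
    simp only [submatrix_apply, ex, of_apply]
    exact ent_diag (h _ i.2)
  · intro i j hij
    simp only [submatrix_apply, ex, of_apply]
    exact ent_upper (h _ j.2) hij

lemma pm_ex_one (s : Finset (Fin (5 + m))) (z : Fin (5 + m)) (hz : (z : ℕ) = 0) (h : z ∈ s) :
    pm (ex m) s = ∏ i ∈ s, ent'' i i := by
  have hz0 : ∀ i : s, (i : Fin (5 + m)) = z ↔ ((i : Fin (5+m)) : ℕ) = 0 := by
    intro i
    constructor
    · intro h; rw [h, hz]
    · intro h; exact Fin.ext (by rw [h, hz])
  have h1 : pm (ex m) s = (Matrix.of fun i j : s => ent' (i : Fin (5+m)) (j : Fin (5+m))).det := by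
    rw [pm]
    refine det_eq_of_forall_row_eq_smul_add_const
      (fun i : s => if ((i : Fin (5+m)) : ℕ) = 0 then 0 else if ((i : Fin (5+m)) : ℕ) < 5
        then 2096/390625 else 0) ⟨z, h⟩ (by simp [hz]) ?_
    intro i j
    simp only [submatrix_apply, ex, of_apply, hz, ent']
    split_ifs with h1 h2
    · rw [h1]; simp
    · simp
    · simp
  have h2 : (Matrix.of fun i j : s => ent' (i : Fin (5+m)) (j : Fin (5+m))).det =
      (Matrix.of fun i j : s => ent'' (i : Fin (5+m)) (j : Fin (5+m))).det := by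
    rw [← det_transpose, ← det_transpose (Matrix.of fun i j : s =>
      ent'' (i : Fin (5+m)) (j : Fin (5+m)))]
    refine det_eq_of_forall_row_eq_smul_add_const
      (fun j : s => if ((j : Fin (5+m)) : ℕ) = 0 then 0 else
        ent 0 (j : Fin (5+m)) / (390625/2096)) ⟨z, h⟩ (by simp [hz]) ?_
    intro j i
    simp only [transpose_apply, of_apply, hz]
    by_cases hi : ((i : Fin (5+m)) : ℕ) = 0
    · rw [hi]
      by_cases hj : ((j : Fin (5+m)) : ℕ) = 0
      · rw [hj]; simp [ent', ent'', ent]
      · rw [if_neg hj]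
        simp only [ent', ent'', if_true, if_neg hj]
        field_simp
        ring
    · rw [show ent'' ((i : Fin (5+m)) : ℕ) 0 = 0 by
        unfold ent''; rw [if_neg hi]; exact ent'_col _ hi]
      rw [mul_zero, add_zero]
      unfold ent''
      rw [if_neg hi]
  rw [h1, h2, det_of_isLowerTriangular]
  · simp only [of_apply]
    exact Finset.prod_coe_sort s (fun i => ent'' (i : Fin (5+m)) (i : Fin (5+m)))
  · intro i j hij
    simp only [of_apply]
    exact ent''_lower hij

/-- the first index -/
def z0 : Fin (5 + m) := ⟨0, by omega⟩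

/-- the value of the principal minor -/
lemma pm_ex (s : Finset (Fin (5 + m))) : pm (ex m) s =
    if z0 m ∈ s then ∏ i ∈ s, ent'' i i else 1 := by
  split_ifs with h
  · exact pm_ex_one m s _ rfl h
  · refine pm_ex_zero m s fun i hi h0 => h ?_
    have : i = z0 m := Fin.ext h0
    rw [← this]; exact hi

lemma pm_ex_pos (s : Finset (Fin (5 + m))) : 0 < pm (ex m) s := by
  rw [pm_ex]
  split_ifs
  · exact Finset.prod_pos fun i _ => ent''_diag_pos _
  · exact one_pos

lemma ent''_le_one (i : ℕ) (h : i ≠ 0) : ent'' i i ≤ 1 := by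
  rw [ent''_diag, if_neg h]
  split_ifs <;> norm_num

lemma ex_condS : CondS 1 (ex m) := by
  refine condS_one (pm_ex_pos m) fun γ a b ha hb hab => ?_
  have hprod : ∀ s : Finset (Fin (5 + m)), 0 < ∏ i ∈ s, ent'' (i : ℕ) i := fun s =>
    Finset.prod_pos fun i _ => ent''_diag_pos _
  have hnz : ∀ c : Fin (5 + m), c ≠ z0 m → (c : ℕ) ≠ 0 := fun c hc h => hc (Fin.ext h)
  rw [pm_ex, pm_ex, pm_ex, pm_ex]
  have ha' : a ∉ insert b γ := by
    rw [Finset.mem_insert]; push Not; exact ⟨hab, ha⟩
  rw [Finset.prod_insert ha', Finset.prod_insert hb, Finset.prod_insert ha]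
  have h2 := hprod γ
  have h4 := ent''_diag_pos (a : ℕ)
  have h5 := ent''_diag_pos (b : ℕ)
  by_cases h0 : z0 m ∈ γ
  · rw [if_pos h0, if_pos (Finset.mem_insert_of_mem (Finset.mem_insert_of_mem h0)),
      if_pos (Finset.mem_insert_of_mem h0), if_pos (Finset.mem_insert_of_mem h0)]
    apply le_of_eq; ring
  · rw [if_neg h0]
    by_cases hza : z0 m = a
    · have hzb : z0 m ≠ b := hza ▸ hab
      have h1 := ent''_le_one b (hnz b (Ne.symm hzb))
      rw [if_pos (by rw [hza]; exact Finset.mem_insert_self _ _),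
        if_pos (by rw [hza]; exact Finset.mem_insert_self _ _),
        if_neg (by rw [Finset.mem_insert]; push Not; exact ⟨hzb, h0⟩)]
      have h6 : 0 < ent'' (a:ℕ) a * ∏ i ∈ γ, ent'' (i : ℕ) i := mul_pos h4 h2
      nlinarith
    · by_cases hzb : z0 m = b
      · have h1 := ent''_le_one a (hnz a (Ne.symm hza))
        rw [if_pos (by rw [hzb]; exact Finset.mem_insert_of_mem (Finset.mem_insert_self _ _)),
          if_neg (by rw [Finset.mem_insert]; push Not; exact ⟨hza, h0⟩),
          if_pos (by rw [hzb]; exact Finset.mem_insert_self _ _)]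
        have h6 : 0 < ent'' (b:ℕ) b * ∏ i ∈ γ, ent'' (i : ℕ) i := mul_pos h5 h2
        nlinarith
      · rw [if_neg (by rw [Finset.mem_insert, Finset.mem_insert]; push Not; exact ⟨hza, hzb, h0⟩),
          if_neg (by rw [Finset.mem_insert]; push Not; exact ⟨hza, h0⟩),
          if_neg (by rw [Finset.mem_insert]; push Not; exact ⟨hzb, h0⟩)]

lemma ex_isP : IsP (ex m) := by
  intro k α
  have h1 := prod_eq_cc (ex m) α α
  -- direct: principal minors along `α`
  let e : Fin k ≃ (Finset.univ.map α.toEmbedding : Finset (Fin (5 + m))) :=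
    Equiv.ofBijective (fun i => ⟨α i, by simp⟩) (by
      constructor
      · intro a b h
        simpa using h
      · rintro ⟨x, hx⟩
        simp only [Finset.mem_map, Finset.mem_univ, true_and] at hx
        obtain ⟨a, ha⟩ := hx
        exact ⟨a, Subtype.ext ha⟩)
  have h2 := pm_enum (ex m) _ e
  have h3 := pm_ex_pos m (Finset.univ.map α.toEmbedding)
  rw [h2] at h3
  exact h3

/-- the eigenvector -/
noncomputable def vec (i : ℕ) : ℂ :=
  if i = 0 then 1
  else if i = 1 then ⟨45588/8515625, 1048/25546875⟩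
  else if i = 2 then ⟨13886/1021875, -27248/1021875⟩
  else if i = 3 then ⟨-4061/40875, -1834/13625⟩
  else if i = 4 then ⟨-3013/3270, 262/1635⟩
  else 0

lemma ex_not_stable : ¬ IsStable (ex m) := by
  intro h
  have := h ⟨-7/131, -24/131⟩ (fun i => vec i) (by
    intro h0
    have := congrFun h0 ⟨0, by omega⟩
    simp [vec] at this) ?_
  · norm_num at this
  · funext i
    simp only [mulVec, dotProduct, Matrix.map_apply, ex, of_apply, Pi.smul_apply, smul_eq_mul]
    rw [Fin.sum_univ_add]
    have h2 : ∑ j : Fin m, (algebraMap ℝ ℂ) (ent i (Fin.natAdd 5 j)) * vec (Fin.natAdd 5 j) = 0 := by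
      refine Finset.sum_eq_zero fun j _ => ?_
      have : vec ((Fin.natAdd 5 j : Fin (5 + m)) : ℕ) = 0 := by
        rw [Fin.val_natAdd]
        unfold vec
        rw [if_neg (by omega), if_neg (by omega), if_neg (by omega), if_neg (by omega),
          if_neg (by omega)]
      rw [this, mul_zero]
    rw [h2, add_zero, Fin.sum_univ_five]
    simp only [Fin.val_castAdd]
    rcases Nat.lt_or_ge (i : ℕ) 5 with hi | hi
    · have hcases : (i : ℕ) = 0 ∨ (i : ℕ) = 1 ∨ (i : ℕ) = 2 ∨ (i : ℕ) = 3 ∨ (i : ℕ) = 4 := by omega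
      rcases hcases with h0 | h0 | h0 | h0 | h0 <;> rw [h0] <;>
        norm_num [ent, vec, Complex.ext_iff]
    · have h3 : vec (i : ℕ) = 0 := by
        unfold vec
        rw [if_neg (by omega), if_neg (by omega), if_neg (by omega), if_neg (by omega),
          if_neg (by omega)]
      rw [h3, mul_zero]
      have h4 : ∀ j : Fin 5, ent (i : ℕ) (j : ℕ) = 0 := by
        intro j
        unfold ent
        rw [if_neg (by omega), if_neg (by omega), if_neg (by omega)]
      have h5 := h4 0; have h6 := h4 1; have h7 := h4 2; have h8 := h4 3; have h9 := h4 4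
      rw [h5, h6, h7, h8, h9]
      simp

/-- for every order `n ≥ 5` there is an unstable `P`-matrix with `(S_1)`. -/
theorem lower (n : ℕ) (hn : 5 ≤ n) : ∃ A : Matrix (Fin n) (Fin n) ℝ, IsP A ∧ CondS 1 A ∧
    ¬ IsStable A := by
  obtain ⟨m, rfl⟩ := Nat.exists_eq_add_of_le hn
  exact ⟨ex m, ex_isP m, ex_condS m, ex_not_stable m⟩

end Pool.Agent.Disp71
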