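import Pool.Agent.Disp71.Stab

namespace Pool.Agent.Disp71

open Matrix Finset Set

variable {n : ℕ}

/-- the leading principal submatrix -/
noncomputable def lead (A : Matrix (Fin (n+1)) (Fin (n+1)) ℝ) : Matrix (Fin n) (Fin n) ℝ :=
  A.submatrix Fin.castSucc Fin.castSucc

lemma lead_isP {A : Matrix (Fin (n+1)) (Fin (n+1)) ℝ} (h : IsP A) : IsP (lead A) := by
  intro k α
  have := h k (α.trans Fin.castSuccOrderEmb)
  exact this

lemma lead_condS {A : Matrix (Fin (n+1)) (Fin (n+1)) ℝ} {d : ℕ} (h : CondS d A) :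
    CondS d (lead A) := by
  intro k α β hd
  refine h k (α.trans Fin.castSuccOrderEmb) (β.trans Fin.castSuccOrderEmb) ?_
  have : common (α.trans Fin.castSuccOrderEmb) (β.trans Fin.castSuccOrderEmb) = common α β := by
    unfold common
    have h1 : ∀ γ : Fin k ↪o Fin n, (Finset.univ.map (γ.trans Fin.castSuccOrderEmb).toEmbedding) =
        (Finset.univ.map γ.toEmbedding).map Fin.castSuccEmb := by
      intro γ
      rw [Finset.map_map]
      rfl
    rw [h1, h1, ← Finset.map_inter, Finset.card_map]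
  rw [this]; exact hd

/-- the weights `(1, …, 1, t)` -/
def wt (n : ℕ) (t : ℝ) (i : Fin (n+1)) : ℝ := if i = Fin.last n then t else 1

/-- the function `P t x = det (x + Z_t A)` -/
noncomputable def PP (A : Matrix (Fin (n+1)) (Fin (n+1)) ℝ) (t : ℝ) (x : ℂ) : ℂ :=
  (x • (1 : Matrix (Fin (n+1)) (Fin (n+1)) ℂ) + cx (diagonal (wt n t) * A)).det

/-- `p' x = det (x + A')` -/
noncomputable def pp (A : Matrix (Fin (n+1)) (Fin (n+1)) ℝ) (x : ℂ) : ℂ :=
  (x • (1 : Matrix (Fin n) (Fin n) ℂ) + cx (lead A)).det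

/-- `q x` -/
noncomputable def qq (A : Matrix (Fin (n+1)) (Fin (n+1)) ℝ) (x : ℂ) : ℂ :=
  ((x • (1 : Matrix (Fin (n+1)) (Fin (n+1)) ℂ) + cx A).updateRow (Fin.last n)
    (cx A (Fin.last n))).det

lemma PP_eq (A : Matrix (Fin (n+1)) (Fin (n+1)) ℝ) (t : ℝ) (x : ℂ) :
    PP A t x = x * pp A x + t * qq A x := by
  set N := x • (1 : Matrix (Fin (n+1)) (Fin (n+1)) ℂ) + cx A with hN
  have h1 : x • (1 : Matrix (Fin (n+1)) (Fin (n+1)) ℂ) + cx (diagonal (wt n t) * A) =
      N.updateRow (Fin.last n) (x • (Pi.single (Fin.last n) 1 : Fin (n+1) → ℂ) +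
        (t : ℂ) • cx A (Fin.last n)) := by
    ext i j
    rw [updateRow_apply]
    by_cases hi : i = Fin.last n
    · subst hi
      simp [diagonal_mul, wt, Matrix.one_apply, Pi.single_apply, eq_comm]
    · simp [diagonal_mul, wt, hi, hN]
  rw [PP, h1, det_updateRow_add, det_updateRow_smul, det_updateRow_smul]
  congr 2
  rw [← adjugate_apply, adjugate_fin_succ_eq_det_submatrix]
  have h2 : (-1 : ℂ) ^ ((Fin.last n : ℕ) + (Fin.last n : ℕ)) = 1 := by
    rw [← two_mul, pow_mul]; simp
  rw [h2, one_mul, pp]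
  congr 1
  ext i j
  simp [hN, lead, Matrix.one_apply]

lemma PP_one (A : Matrix (Fin (n+1)) (Fin (n+1)) ℝ) (x : ℂ) :
    PP A 1 x = (x • (1 : Matrix (Fin (n+1)) (Fin (n+1)) ℂ) + cx A).det := by
  have : wt n 1 = fun _ => 1 := by ext i; simp [wt]
  rw [PP, this]
  simp

lemma continuous_pp (A : Matrix (Fin (n+1)) (Fin (n+1)) ℝ) : Continuous (pp A) := by
  unfold pp
  exact Continuous.matrix_det (by fun_prop)

lemma continuous_qq (A : Matrix (Fin (n+1)) (Fin (n+1)) ℝ) : Continuous (qq A) := by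
  unfold qq
  exact Continuous.matrix_det (Continuous.matrix_updateRow _ (by fun_prop) continuous_const)

lemma det_cx (A : Matrix (Fin n) (Fin n) ℝ) : (cx A).det = ((A.det : ℝ) : ℂ) := by
  have := RingHom.map_det (algebraMap ℝ ℂ) A
  rw [RingHom.mapMatrix_apply] at this
  exact this.symm

lemma det_eq_pm (A : Matrix (Fin n) (Fin n) ℝ) : A.det = pm A univ := by
  rw [pm]
  have := det_submatrix_equiv_self (Equiv.subtypeUnivEquiv (fun x => Finset.mem_univ x) :
    ((univ : Finset (Fin n)) : Type) ≃ Fin n) A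
  rw [← this]
  rfl

lemma pp_zero (A : Matrix (Fin (n+1)) (Fin (n+1)) ℝ) :
    pp A 0 = (((lead A).det : ℝ) : ℂ) := by
  rw [pp, zero_smul, zero_add, det_cx]

lemma qq_zero (A : Matrix (Fin (n+1)) (Fin (n+1)) ℝ) : qq A 0 = ((A.det : ℝ) : ℂ) := by
  have h := PP_eq A 1 0
  rw [PP_one, zero_smul, zero_add, det_cx] at h
  simpa using h.symm

theorem main_aux {d : ℕ} : ∀ n : ℕ, n ≤ 2 * d + 2 → ∀ A : Matrix (Fin n) (Fin n) ℝ, IsP A →
    CondS d A → ∀ x : ℂ, 0 ≤ x.re → (x • (1 : Matrix (Fin n) (Fin n) ℂ) + cx A).det ≠ 0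
  | 0, _, A, _, _, x, _ => by simp
  | n + 1, hn, A, hP, hS, x, hx => by
    have IH := main_aux n (by omega) (lead A) (lead_isP hP) (lead_condS hS)
    rw [← PP_one]
    intro hroot
    -- bound
    set R : ℝ := ∑ i, ∑ j, ‖cx A i j‖ with hR
    have hbound : ∀ t : ℝ, 0 ≤ t → t ≤ 1 → ∀ y : ℂ, PP A t y = 0 → ‖y‖ ≤ R := by
      intro t ht0 ht1 y hy
      refine (root_bound _ y hy).trans ?_
      refine Finset.sum_le_sum fun i _ => Finset.sum_le_sum fun j _ => ?_
      simp only [cx, Matrix.map_apply, diagonal_mul, map_mul, norm_mul]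
      have : ‖(algebraMap ℝ ℂ) (wt n t i)‖ ≤ 1 := by
        rw [Complex.coe_algebraMap, Complex.norm_real, Real.norm_eq_abs]
        unfold wt; split_ifs
        · rw [abs_of_nonneg ht0]; exact ht1
        · simp
      exact mul_le_of_le_one_left (norm_nonneg _) this
    have hR0 : 0 ≤ R := Finset.sum_nonneg fun i _ => Finset.sum_nonneg fun j _ => norm_nonneg _
    -- compact region
    set K : Set ℂ := {y : ℂ | 0 ≤ y.re} ∩ Metric.closedBall 0 R with hK
    have hKc : IsCompact K :=
      (isCompact_closedBall (0:ℂ) R).inter_left (isClosed_le continuous_const Complex.continuous_re)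
    have hcp := continuous_pp A
    have hcq := continuous_qq A
    have hdA : 0 < A.det := by rw [det_eq_pm]; exact hP.pm_pos _
    have hdA' : 0 < (lead A).det := by rw [det_eq_pm]; exact (lead_isP hP).pm_pos _
    -- no roots for small t
    obtain ⟨δ, hδ, hsmall⟩ : ∃ δ > 0, ∀ t : ℝ, 0 < t → t < δ → ∀ y ∈ K, PP A t y ≠ 0 := by
      set r : ℂ → ℝ := fun y => (qq A y * (starRingEnd ℂ) (pp A y)).re with hr
      have hrc : Continuous r := Complex.continuous_re.comp
        (hcq.mul (Complex.continuous_conj.comp hcp))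
      have hr0 : 0 < r 0 := by
        rw [hr]
        simp only
        rw [pp_zero, qq_zero, Complex.conj_ofReal, ← Complex.ofReal_mul, Complex.ofReal_re]
        exact mul_pos hdA hdA'
      set K1 : Set ℂ := K ∩ {y | r y ≤ 0} with hK1
      have hK1c : IsCompact K1 := hKc.inter_right (isClosed_le hrc continuous_const)
      obtain ⟨c, hc, hcK⟩ : ∃ c > 0, ∀ y ∈ K1, c ≤ ‖y * pp A y‖ := by
        rcases K1.eq_empty_or_nonempty with he | hne
        · exact ⟨1, one_pos, by rw [he]; simp⟩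
        · obtain ⟨y0, hy0, hmin⟩ := hK1c.exists_isMinOn hne
            ((continuous_id.mul hcp).norm.continuousOn (s := K1))
          refine ⟨‖y0 * pp A y0‖, ?_, fun y hy => hmin hy⟩
          refine norm_pos_iff.mpr (mul_ne_zero ?_ (IH y0 hy0.1.1))
          intro h0
          have := hy0.2
          rw [h0] at this
          exact absurd hr0 (not_lt.mpr this)
      obtain ⟨M, hM⟩ : ∃ M : ℝ, ∀ y ∈ K, ‖qq A y‖ ≤ M := by
        obtain ⟨M, hM⟩ := hKc.exists_bound_of_continuousOn (hcq.continuousOn (s := K))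
        exact ⟨M, hM⟩
      have hM0 : 0 ≤ M := (norm_nonneg _).trans (hM 0 ⟨by simp, by simp [hR0]⟩)
      refine ⟨c / (M + 1), by positivity, ?_⟩
      intro t ht0 htδ y hy hroot
      rw [PP_eq] at hroot
      have heq : y * pp A y = -(t * qq A y) := eq_neg_of_add_eq_zero_left hroot
      by_cases hyr : r y ≤ 0
      · have h1 := hcK y ⟨hy, hyr⟩
        rw [heq, norm_neg, norm_mul, Complex.norm_real, Real.norm_eq_abs, abs_of_pos ht0] at h1
        have h2 : t * ‖qq A y‖ ≤ t * M := mul_le_mul_of_nonneg_left (hM y hy) ht0.le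
        have h3 : t * (M + 1) < c := by rwa [lt_div_iff₀ (by positivity)] at htδ
        nlinarith
      · push Not at hyr
        have h1 : y.re * Complex.normSq (pp A y) = -(t * r y) := by
          have h2 := congrArg (fun w => (w * (starRingEnd ℂ) (pp A y)).re) heq
          rw [mul_assoc, Complex.mul_conj, Complex.re_mul_ofReal] at h2
          rw [h2, neg_mul, Complex.neg_re, mul_assoc, Complex.re_ofReal_mul]
        have h3 : 0 ≤ y.re * Complex.normSq (pp A y) :=
          mul_nonneg hy.1 (Complex.normSq_nonneg _)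
        have h4 : 0 < t * r y := mul_pos ht0 hyr
        linarith
    -- the compact set of roots
    set S : Set (ℝ × ℂ) := (Set.Icc (min (δ/2) 1) 1 ×ˢ K) ∩ {p | PP A p.1 p.2 = 0} with hSdef
    have hPc : Continuous (fun p : ℝ × ℂ => PP A p.1 p.2) := by
      have : (fun p : ℝ × ℂ => PP A p.1 p.2) = fun p : ℝ × ℂ =>
          p.2 * pp A p.2 + (p.1 : ℂ) * qq A p.2 := by ext p; exact PP_eq A p.1 p.2
      rw [this]
      exact (continuous_snd.mul (hcp.comp continuous_snd)).add
        ((Complex.continuous_ofReal.comp continuous_fst).mul (hcq.comp continuous_snd))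
    have hSc : IsCompact S := (isCompact_Icc.prod hKc).inter_right
      (isClosed_eq hPc continuous_const)
    have hSne : S.Nonempty := ⟨(1, x), ⟨⟨⟨min_le_right _ _, le_refl _⟩, hx, by
      rw [mem_closedBall_zero_iff]; exact hbound 1 zero_le_one le_rfl x hroot⟩, hroot⟩⟩
    obtain ⟨⟨t0, x0⟩, hmem, hmin⟩ := hSc.exists_isMinOn hSne (continuous_fst.continuousOn (s := S))
    obtain ⟨⟨⟨ht0a, ht0b⟩, hx0K⟩, hP0⟩ := hmem
    simp only at ht0a ht0b hx0K hP0
    simp only [Set.mem_ofPred_eq] at hP0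
    have hδ2 : 0 < min (δ/2) 1 := lt_min (by linarith) one_pos
    have ht0pos : 0 < t0 := lt_of_lt_of_le hδ2 ht0a
    have ht0δ : δ ≤ t0 := by
      by_contra hlt
      push Not at hlt
      exact hsmall t0 ht0pos hlt x0 hx0K hP0
    -- real part positive
    have hre : 0 < x0.re := by
      refine lt_of_le_of_ne hx0K.1 fun h0 => ?_
      refine imag_ne hP hS hn (wt n t0) (fun i => ?_) x0 h0.symm hP0
      unfold wt; split_ifs
      · exact ht0pos
      · exact one_pos
    -- persistence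
    have hcont : Filter.Tendsto (fun t : ℝ => ‖PP A t x0‖) (nhdsWithin t0 (Set.Iio t0)) (nhds 0) := by
      have h1 : Continuous (fun t : ℝ => ‖PP A t x0‖) :=
        (hPc.comp (continuous_id.prodMk continuous_const)).norm
      have h2 := h1.tendsto t0
      rw [hP0, norm_zero] at h2
      exact h2.mono_left nhdsWithin_le_nhds
    have hev1 : ∀ᶠ t in nhdsWithin t0 (Set.Iio t0), ‖PP A t x0‖ < x0.re ^ (n + 1) :=
      hcont.eventually (gt_mem_nhds (pow_pos hre _))
    have hev2 : ∀ᶠ t in nhdsWithin t0 (Set.Iio t0), min (δ/2) 1 < t := by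
      refine nhdsWithin_le_nhds (lt_mem_nhds ?_)
      exact lt_of_le_of_lt (min_le_left _ _) (by linarith)
    have hev3 : ∀ᶠ t in nhdsWithin t0 (Set.Iio t0), t < t0 := self_mem_nhdsWithin
    obtain ⟨t1, h1, h2, h3⟩ := (hev1.and (hev2.and hev3)).exists
    obtain ⟨x1, hx1, hx1r⟩ := near_root (cx (diagonal (wt n t1) * A)) x0 x0.re hre h1
    have hx1re : 0 ≤ x1.re := by
      have h4 : x0.re - x1.re ≤ ‖x0 - x1‖ := by
        have := Complex.re_le_norm (x0 - x1)
        simpa using this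
      linarith
    have hS1 : (t1, x1) ∈ S := ⟨⟨⟨h2.le, by linarith⟩, hx1re, by
      rw [mem_closedBall_zero_iff]
      exact hbound t1 (hδ2.trans h2).le (by linarith) x1 hx1r⟩, hx1r⟩
    have := hmin hS1
    simp only [Set.mem_ofPred_eq] at this
    linarith

/-- `(S_d)` `P`-matrices of order at most `2 d + 2` are stable. -/
theorem stable_of_condS {n d : ℕ} (hn : n ≤ 2 * d + 2) (A : Matrix (Fin n) (Fin n) ℝ)
    (hP : IsP A) (hS : CondS d A) : IsStable A :=
  (stable_iff A).mpr (main_aux n hn A hP hS)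

end Pool.Agent.Disp71
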