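import Pool.Agent.Disp71.Expand

namespace Pool.Agent.Disp71

open Matrix Finset

variable {n : ℕ}

/-- principal minor on a finset -/
noncomputable def pm (A : Matrix (Fin n) (Fin n) ℝ) (s : Finset (Fin n)) : ℝ :=
  (A.submatrix (Subtype.val : s → Fin n) Subtype.val).det

lemma pm_eq (A : Matrix (Fin n) (Fin n) ℝ) (s : Finset (Fin n)) :
    pm A s = (A.submatrix (s.orderEmbOfFin rfl) (s.orderEmbOfFin rfl)).det := by
  rw [pm, ← det_submatrix_equiv_self (s.orderIsoOfFin rfl).toEquiv]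
  rfl

lemma IsP.pm_pos {A : Matrix (Fin n) (Fin n) ℝ} (h : IsP A) (s : Finset (Fin n)) : 0 < pm A s := by
  rw [pm_eq]; exact h _ _

lemma cc_self (A : Matrix (Fin n) (Fin n) ℝ) (s : Finset (Fin n)) : cc A s s = pm A s ^ 2 := by
  rw [cc, dif_pos rfl, ← pm_eq, sq]

/-- sign character -/
def sg (α : Finset (Fin n)) (i : Fin n) : ℝ := if i ∈ α then -1 else 1

lemma sg_mul_self (α : Finset (Fin n)) (i : Fin n) : sg α i * sg α i = 1 := by
  unfold sg; split_ifs <;> norm_num

lemma sg_empty (i : Fin n) : sg ∅ i = 1 := by simp [sg]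
lemma sg_univ (i : Fin n) : sg univ i = -1 := by simp [sg]

lemma sg_compl (α : Finset (Fin n)) (i : Fin n) : sg αᶜ i = - sg α i := by
  unfold sg; by_cases h : i ∈ α <;> simp [h]

/-- flipping signs on `t` -/
def flip (z : Fin n → ℝ) (t : Finset (Fin n)) (i : Fin n) : ℝ := sg t i * z i

lemma prod_sg_comm (α t : Finset (Fin n)) : ∏ i ∈ α, sg t i = ∏ i ∈ t, sg α i := by
  unfold sg
  rw [Finset.prod_ite_mem, Finset.prod_ite_mem, Finset.inter_comm]

lemma prod_flip (z : Fin n → ℝ) (α t : Finset (Fin n)) :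
    ∏ i ∈ α, flip z t i = (∏ i ∈ t, sg α i) * ∏ i ∈ α, z i := by
  unfold flip
  rw [Finset.prod_mul_distrib, prod_sg_comm]

lemma sum_char (u : Fin n → ℝ) : ∑ t : Finset (Fin n), ∏ i ∈ t, u i = ∏ i, (1 + u i) := by
  rw [Finset.prod_one_add]
  simp

lemma sum_char_two (α β : Finset (Fin n)) :
    ∑ t : Finset (Fin n), (∏ i ∈ t, sg α i) * (∏ i ∈ t, sg β i) = if α = β then (2:ℝ) ^ n else 0 := by
  simp_rw [← Finset.prod_mul_distrib]
  rw [sum_char]
  split_ifs with h
  · subst h
    simp only [sg_mul_self]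
    norm_num
  · have : ∃ i, sg α i * sg β i = -1 := by
      by_contra hcon
      push Not at hcon
      apply h
      ext i
      have := hcon i
      unfold sg at this
      by_cases h1 : i ∈ α <;> by_cases h2 : i ∈ β <;> simp [h1, h2] at this ⊢
    obtain ⟨i, hi⟩ := this
    exact Finset.prod_eq_zero (Finset.mem_univ i) (by rw [hi]; norm_num)

lemma neg_one_pow_card (t : Finset (Fin n)) : (-1:ℝ) ^ t.card = ∏ i ∈ t, sg univ i := by
  simp [sg_univ]

lemma mul_char_univ (α t : Finset (Fin n)) :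
    (∏ i ∈ t, sg univ i) * (∏ i ∈ t, sg α i) = ∏ i ∈ t, sg αᶜ i := by
  rw [← Finset.prod_mul_distrib]
  refine Finset.prod_congr rfl fun i _ => ?_
  rw [sg_univ, sg_compl]; ring

/-- the projection onto `α, αᶜ` -/
lemma sum_even (f : Finset (Fin n) → ℝ) (γ : Finset (Fin n)) :
    ∑ t : Finset (Fin n), (1 + (-1:ℝ) ^ t.card) * ((∏ i ∈ t, sg γ i) *
      ∑ α : Finset (Fin n), f α * ∏ i ∈ t, sg α i) = 2 ^ n * (f γ + f γᶜ) := by
  have h1 : ∀ t : Finset (Fin n), (1 + (-1:ℝ) ^ t.card) * ((∏ i ∈ t, sg γ i) *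
      ∑ α : Finset (Fin n), f α * ∏ i ∈ t, sg α i) =
      ∑ α : Finset (Fin n), (f α * ((∏ i ∈ t, sg γ i) * ∏ i ∈ t, sg α i) +
        f α * ((∏ i ∈ t, sg γᶜ i) * ∏ i ∈ t, sg α i)) := by
    intro t
    rw [neg_one_pow_card, ← mul_char_univ γ t, Finset.mul_sum, Finset.mul_sum]
    refine Finset.sum_congr rfl fun α _ => ?_
    ring
  simp_rw [h1]
  rw [Finset.sum_comm]
  simp_rw [Finset.sum_add_distrib, ← Finset.mul_sum, sum_char_two]
  simp only [mul_ite, mul_zero, Finset.sum_ite_eq, Finset.mem_univ, if_true]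
  ring

/-- complex version of `sum_even` -/
lemma sum_even_complex (f : Finset (Fin n) → ℂ) (γ : Finset (Fin n)) :
    ∑ t : Finset (Fin n), ((∏ i ∈ t, sg γ i : ℝ) : ℂ) * ((1 + (-1:ℂ) ^ t.card) *
      ∑ α : Finset (Fin n), f α * ((∏ i ∈ t, sg α i : ℝ) : ℂ)) = 2 ^ n * (f γ + f γᶜ) := by
  have h1 : ∀ t : Finset (Fin n), ((∏ i ∈ t, sg γ i : ℝ) : ℂ) * ((1 + (-1:ℂ) ^ t.card) *
      ∑ α : Finset (Fin n), f α * ((∏ i ∈ t, sg α i : ℝ) : ℂ)) =
      ∑ α : Finset (Fin n), (f α * (((∏ i ∈ t, sg γ i) * ∏ i ∈ t, sg α i : ℝ) : ℂ) +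
        f α * (((∏ i ∈ t, sg γᶜ i) * ∏ i ∈ t, sg α i : ℝ) : ℂ)) := by
    intro t
    have h2 : (-1:ℂ) ^ t.card = ((∏ i ∈ t, sg univ i : ℝ) : ℂ) := by
      rw [← neg_one_pow_card]; simp
    rw [h2, ← mul_char_univ γ t, Finset.mul_sum, Finset.mul_sum]
    refine Finset.sum_congr rfl fun α _ => ?_
    push_cast
    ring
  simp_rw [h1]
  rw [Finset.sum_comm]
  simp_rw [Finset.sum_add_distrib, ← Finset.mul_sum, ← Complex.ofReal_sum, sum_char_two]
  simp only [apply_ite Complex.ofReal, Complex.ofReal_zero, mul_ite, mul_zero,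
    Finset.sum_ite_eq, Finset.mem_univ, if_true]
  push_cast
  ring

lemma det_diag_mul_submatrix {κ : Type*} [Fintype κ] [DecidableEq κ]
    (z : Fin n → ℝ) (A : Matrix (Fin n) (Fin n) ℝ) (f g : κ → Fin n) :
    ((diagonal z * A).submatrix f g).det = (∏ i, z (f i)) * (A.submatrix f g).det := by
  have : (diagonal z * A).submatrix f g = diagonal (z ∘ f) * A.submatrix f g := by
    ext i j; simp [diagonal_mul]
  rw [this, det_mul, det_diagonal]; rfl

lemma prod_orderEmb (z : Fin n → ℝ) (α : Finset (Fin n)) {k : ℕ} (h : α.card = k) :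
    ∏ i, z (α.orderEmbOfFin h i) = ∏ i ∈ α, z i := by
  have := Finset.prod_map (Finset.univ : Finset (Fin k)) (α.orderEmbOfFin h).toEmbedding z
  rw [Finset.map_orderEmbOfFin_univ] at this
  exact this.symm

lemma cc_diag (z : Fin n → ℝ) (A : Matrix (Fin n) (Fin n) ℝ) (α β : Finset (Fin n)) :
    cc (diagonal z * A) α β = (∏ i ∈ α, z i) * (∏ i ∈ β, z i) * cc A α β := by
  unfold cc
  split_ifs with h
  · rw [det_diag_mul_submatrix, det_diag_mul_submatrix, prod_orderEmb, prod_orderEmb]; ring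
  · ring

/-- `G z = det (1 + (Z A)²)` -/
lemma G_eq (z : Fin n → ℝ) (A : Matrix (Fin n) (Fin n) ℝ) :
    (1 + (diagonal z * A) * (diagonal z * A)).det =
      ∑ α : Finset (Fin n), ∑ β : Finset (Fin n),
        (∏ i ∈ α, z i) * (∏ i ∈ β, z i) * cc A α β := by
  rw [det_one_add_sq]
  simp_rw [cc_diag]

/-- complex factorisation -/
lemma det_sq_eq (B : Matrix (Fin n) (Fin n) ℝ) :
    (((1 + B * B).det : ℝ) : ℂ) =
      (1 + Complex.I • B.map (algebraMap ℝ ℂ)).det * (1 - Complex.I • B.map (algebraMap ℝ ℂ)).det := by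
  rw [← det_mul]
  have h1 : (((1 + B * B).det : ℝ) : ℂ) = ((1 + B * B).map (algebraMap ℝ ℂ)).det := by
    have := RingHom.map_det (algebraMap ℝ ℂ) (1 + B * B)
    simpa [RingHom.mapMatrix_apply] using this
  rw [h1]
  congr 1
  have h2 : (1 + B * B).map (algebraMap ℝ ℂ) = 1 + B.map (algebraMap ℝ ℂ) * B.map (algebraMap ℝ ℂ) := by
    have := (RingHom.mapMatrix (algebraMap ℝ ℂ) : Matrix (Fin n) (Fin n) ℝ →+* _).map_add 1 (B * B)
    rw [map_one, map_mul] at this
    simpa [RingHom.mapMatrix_apply] using this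
  rw [h2, add_mul, mul_sub, mul_sub, mul_one, one_mul, mul_one, smul_mul_smul_comm,
    Complex.I_mul_I]
  simp only [neg_smul, one_smul]
  abel

lemma conj_det (B : Matrix (Fin n) (Fin n) ℝ) :
    (1 - Complex.I • B.map (algebraMap ℝ ℂ)).det =
      (starRingEnd ℂ) (1 + Complex.I • B.map (algebraMap ℝ ℂ)).det := by
  rw [RingHom.map_det]
  congr 1
  ext i j
  simp [Matrix.one_apply, RingHom.mapMatrix_apply, apply_ite, sub_eq_add_neg]

lemma det_sq_normSq (B : Matrix (Fin n) (Fin n) ℝ) :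
    (1 + B * B).det = Complex.normSq (1 + Complex.I • B.map (algebraMap ℝ ℂ)).det := by
  have h := det_sq_eq B
  rw [conj_det, Complex.mul_conj] at h
  exact_mod_cast h

lemma G_nonneg (B : Matrix (Fin n) (Fin n) ℝ) : 0 ≤ (1 + B * B).det := by
  rw [det_sq_normSq]; exact Complex.normSq_nonneg _

/-- the expansion of `det (1 + i Z A)` -/
lemma F_eq (z : Fin n → ℝ) (A : Matrix (Fin n) (Fin n) ℝ) :
    (1 + Complex.I • (diagonal z * A).map (algebraMap ℝ ℂ)).det =
      ∑ s : Finset (Fin n), Complex.I ^ s.card * (((∏ i ∈ s, z i) * pm A s : ℝ) : ℂ) := by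
  rw [det_one_add_eq]
  refine Finset.sum_congr rfl fun s _ => ?_
  have h1 : (Complex.I • (diagonal z * A).map (algebraMap ℝ ℂ)).submatrix
      (Subtype.val : s → Fin n) (Subtype.val : s → Fin n) =
      Complex.I • ((diagonal z * A).submatrix (Subtype.val : s → Fin n)
        (Subtype.val : s → Fin n)).map (algebraMap ℝ ℂ) := by
    ext i j; simp
  rw [h1, det_smul, Fintype.card_coe]
  congr 1
  have h2 := RingHom.map_det (algebraMap ℝ ℂ)
    ((diagonal z * A).submatrix (Subtype.val : s → Fin n) (Subtype.val : s → Fin n))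
  rw [RingHom.mapMatrix_apply] at h2
  rw [← h2, det_diag_mul_submatrix]
  simp only [pm, Complex.coe_algebraMap]
  congr 2
  exact Finset.prod_coe_sort s z


lemma cc_nonneg {A : Matrix (Fin n) (Fin n) ℝ} {d : ℕ} (h : CondS d A) (α β : Finset (Fin n))
    (hd : α.card - (α ∩ β).card ≤ d) : 0 ≤ cc A α β := by
  unfold cc
  split_ifs with hc
  · apply h
    rw [common, Finset.map_orderEmbOfFin_univ, Finset.map_orderEmbOfFin_univ]
    exact hd
  · exact le_refl 0

lemma disp_bound (α β : Finset (Fin n)) (hc : β.card = α.card) :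
    2 * (α.card - (α ∩ β).card) ≤ n := by
  have h1 : (α ∪ β).card ≤ n := by
    have := Finset.card_le_univ (α ∪ β); simpa using this
  have h2 := Finset.card_union_add_card_inter α β
  omega

lemma disp_eq_compl (α β : Finset (Fin n)) (hc : β.card = α.card) {d : ℕ} (hn : n = 2 * d + 2)
    (h : ¬ (α.card - (α ∩ β).card ≤ d)) : β = αᶜ := by
  have h1 : (α ∪ β).card ≤ n := by
    have := Finset.card_le_univ (α ∪ β); simpa using this
  have h2 := Finset.card_union_add_card_inter α β
  have h3 : (α ∩ β).card = 0 := by omega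
  have h4 : (α ∪ β).card = n := by omega
  have h5 : α ∪ β = univ := by
    rw [← Finset.card_eq_iff_eq_univ, h4, Fintype.card_fin]
  have h6 : Disjoint α β := by
    rw [Finset.disjoint_iff_inter_eq_empty]; exact Finset.card_eq_zero.mp h3
  exact (IsCompl.compl_eq ⟨h6, by rw [codisjoint_iff]; exact h5⟩).symm

/-- main positivity -/
theorem G_pos {A : Matrix (Fin n) (Fin n) ℝ} {d : ℕ} (hP : IsP A) (hS : CondS d A)
    (hn : n ≤ 2 * d + 2) (z : Fin n → ℝ) (hz : ∀ i, 0 < z i) :
    0 < (1 + (diagonal z * A) * (diagonal z * A)).det := by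
  have hzp : ∀ s : Finset (Fin n), 0 < ∏ i ∈ s, z i := fun s => Finset.prod_pos fun i _ => hz i
  have key : ∀ α β : Finset (Fin n), (β.card = α.card → α.card - (α ∩ β).card ≤ d) →
      0 ≤ (∏ i ∈ α, z i) * (∏ i ∈ β, z i) * cc A α β := by
    intro α β h
    by_cases hc : β.card = α.card
    · exact mul_nonneg (mul_pos (hzp _) (hzp _)).le (cc_nonneg hS α β (h hc))
    · rw [cc_of_card_ne A α β hc, mul_zero]
  by_cases hlt : n ≤ 2 * d + 1
  · rw [G_eq]
    have h1 : ∀ α ∈ (univ : Finset (Finset (Fin n))), 0 ≤ ∑ β : Finset (Fin n),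
        (∏ i ∈ α, z i) * (∏ i ∈ β, z i) * cc A α β := fun α _ =>
      Finset.sum_nonneg fun β _ => key α β fun hc => by have := disp_bound α β hc; omega
    refine Finset.sum_pos' h1 ⟨∅, Finset.mem_univ _, ?_⟩
    refine Finset.sum_pos' (fun β _ => key ∅ β fun hc => by have := disp_bound ∅ β hc; omega)
      ⟨∅, Finset.mem_univ _, ?_⟩
    rw [cc_self]
    exact mul_pos (mul_pos (hzp _) (hzp _)) (pow_pos (hP.pm_pos _) 2)
  · have hn2 : n = 2 * d + 2 := by omega
    have hn0 : 0 < n := by omega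
    -- the function of `t`
    set G : Finset (Fin n) → ℝ := fun t =>
      (1 + (diagonal (flip z t) * A) * (diagonal (flip z t) * A)).det with hG
    have hG0 : ∀ t, 0 ≤ G t := fun t => G_nonneg _
    set D : ℝ := ∑ α : Finset (Fin n), (∏ i ∈ α, z i) * (∏ i ∈ α, z i) * cc A α α with hD
    set Y : ℝ := ∑ α : Finset (Fin n), (∏ i ∈ α, z i) * (∏ i ∈ αᶜ, z i) * cc A α αᶜ with hY
    -- lower bound
    have hcompl : ∀ α : Finset (Fin n), α ≠ αᶜ := by
      intro α h
      have h1 : (⟨0, hn0⟩ : Fin n) ∈ α ↔ (⟨0, hn0⟩ : Fin n) ∈ αᶜ := by rw [← h]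
      rw [Finset.mem_compl] at h1
      exact (iff_not_self h1)
    have hlow : D + Y ≤ (1 + (diagonal z * A) * (diagonal z * A)).det := by
      rw [G_eq, hD, hY, ← Finset.sum_add_distrib]
      refine Finset.sum_le_sum fun α _ => ?_
      rw [← Finset.sum_pair (f := fun β => (∏ i ∈ α, z i) * (∏ i ∈ β, z i) * cc A α β) (hcompl α)]
      refine Finset.sum_le_sum_of_subset_of_nonneg (Finset.subset_univ _) fun β _ hβ => ?_
      refine key α β fun hc => ?_
      by_contra hcon
      apply hβ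
      rw [disp_eq_compl α β hc hn2 hcon]
      simp
    -- Parseval
    have hpars : ∑ t : Finset (Fin n), (1 + (-1:ℝ) ^ t.card) * G t = 2 ^ n * (D + Y) := by
      have h1 : ∀ t : Finset (Fin n), (1 + (-1:ℝ) ^ t.card) * G t =
          ∑ α : Finset (Fin n), (1 + (-1:ℝ) ^ t.card) * ((∏ i ∈ t, sg α i) *
            ∑ β : Finset (Fin n), ((∏ i ∈ α, z i) * (∏ i ∈ β, z i) * cc A α β) * ∏ i ∈ t, sg β i) := by
        intro t
        rw [hG]
        simp only
        rw [G_eq, Finset.mul_sum]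
        refine Finset.sum_congr rfl fun α _ => ?_
        congr 1
        rw [Finset.mul_sum]
        refine Finset.sum_congr rfl fun β _ => ?_
        rw [prod_flip, prod_flip]; ring
      simp_rw [h1]
      rw [Finset.sum_comm]
      simp_rw [sum_even (fun β => _ * _ * cc A _ β)]
      rw [← Finset.mul_sum, Finset.sum_add_distrib]
    have hDYnn : 0 ≤ D + Y := by
      have : 0 ≤ (2:ℝ) ^ n * (D + Y) := by
        rw [← hpars]
        refine Finset.sum_nonneg fun t _ => mul_nonneg ?_ (hG0 t)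
        rcases neg_one_pow_eq_or ℝ t.card with h | h <;> rw [h] <;> norm_num
      exact nonneg_of_mul_nonneg_right this (by positivity)
    by_contra hcon
    have hDY : D + Y = 0 := le_antisymm (hlow.trans (not_lt.mp hcon)) hDYnn
    rw [hDY, mul_zero] at hpars
    have hzero : ∀ t : Finset (Fin n), (1 + (-1:ℝ) ^ t.card) * G t = 0 := by
      have := (Finset.sum_eq_zero_iff_of_nonneg (s := (univ : Finset (Finset (Fin n))))
        (f := fun t => (1 + (-1:ℝ) ^ t.card) * G t) (fun t _ => mul_nonneg (by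
          rcases neg_one_pow_eq_or ℝ t.card with h | h <;> rw [h] <;> norm_num) (hG0 t))).mp hpars
      intro t; exact this t (Finset.mem_univ _)
    -- the complex determinants vanish
    have hF : ∀ t : Finset (Fin n), (1 + (-1:ℂ) ^ t.card) *
        ∑ s : Finset (Fin n), Complex.I ^ s.card *
          (((∏ i ∈ s, flip z t i) * pm A s : ℝ) : ℂ) = 0 := by
      intro t
      rcases Nat.even_or_odd t.card with he | ho
      · have h1 := hzero t
        rw [he.neg_one_pow] at h1
        have h2 : G t = 0 := by linarith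
        rw [hG] at h2
        simp only at h2
        rw [det_sq_normSq, Complex.normSq_eq_zero, F_eq] at h2
        rw [h2, mul_zero]
      · rw [ho.neg_one_pow]; simp
    set f : Finset (Fin n) → ℂ := fun s => Complex.I ^ s.card * (((∏ i ∈ s, z i) * pm A s : ℝ) : ℂ)
      with hf
    have hfz : ∀ γ : Finset (Fin n), f γ + f γᶜ = 0 := by
      intro γ
      have h1 := sum_even_complex f γ
      have h2 : ∑ t : Finset (Fin n), ((∏ i ∈ t, sg γ i : ℝ) : ℂ) * ((1 + (-1:ℂ) ^ t.card) *
          ∑ α : Finset (Fin n), f α * ((∏ i ∈ t, sg α i : ℝ) : ℂ)) = 0 := by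
        refine Finset.sum_eq_zero fun t _ => ?_
        have h3 := hF t
        have h4 : ∑ s : Finset (Fin n), Complex.I ^ s.card *
            (((∏ i ∈ s, flip z t i) * pm A s : ℝ) : ℂ) =
            ∑ α : Finset (Fin n), f α * ((∏ i ∈ t, sg α i : ℝ) : ℂ) := by
          refine Finset.sum_congr rfl fun s _ => ?_
          rw [prod_flip, hf]
          push_cast
          ring
        rw [← h4, h3, mul_zero]
      rw [h1] at h2
      have h5 : (2:ℂ) ^ n ≠ 0 := pow_ne_zero _ two_ne_zero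
      exact (mul_eq_zero.mp h2).resolve_left h5
    have hpos : ∀ s : Finset (Fin n), 0 < (∏ i ∈ s, z i) * pm A s := fun s =>
      mul_pos (hzp s) (hP.pm_pos s)
    rcases Nat.even_or_odd (d + 1) with he | ho
    · have h1 := hfz ∅
      rw [hf] at h1
      simp only [Finset.card_empty, pow_zero, one_mul, Finset.compl_empty, Finset.card_univ,
        Fintype.card_fin] at h1
      have h2 : Complex.I ^ n = 1 := by
        rw [hn2, show 2 * d + 2 = 2 * (d + 1) by ring, pow_mul, Complex.I_sq, he.neg_one_pow]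
      rw [h2, one_mul, ← Complex.ofReal_add] at h1
      have h3 : ((∏ i ∈ (∅ : Finset (Fin n)), z i) * pm A ∅ + (∏ i ∈ univ, z i) * pm A univ) = 0 := by
        exact_mod_cast h1
      have h4 := hpos ∅
      have h5 := hpos univ
      linarith
    · have h1 := hfz {⟨0, hn0⟩}
      rw [hf] at h1
      simp only [Finset.card_singleton, pow_one, Finset.card_compl, Fintype.card_fin] at h1
      have h2 : Complex.I ^ (n - 1) = Complex.I := by
        rw [hn2, show 2 * d + 2 - 1 = 2 * d + 1 by omega, pow_succ, pow_mul, Complex.I_sq]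
        have : Even d := by
          rcases Nat.even_or_odd d with h | h
          · exact h
          · exfalso
            have := h.add_one
            rw [← Nat.not_even_iff_odd] at ho
            exact ho this
        rw [this.neg_one_pow, one_mul]
      rw [h2, ← mul_add, ← Complex.ofReal_add] at h1
      have h3 := (mul_eq_zero.mp h1).resolve_left Complex.I_ne_zero
      have h4 := hpos {⟨0, hn0⟩}
      have h5 := hpos {⟨0, hn0⟩}ᶜ
      have h6 : (∏ i ∈ {⟨0, hn0⟩}, z i) * pm A {⟨0, hn0⟩} +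
        (∏ i ∈ {⟨0, hn0⟩}ᶜ, z i) * pm A {⟨0, hn0⟩}ᶜ = 0 := by exact_mod_cast h3
      linarith

end Pool.Agent.Disp71
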