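import Pool.Agent.Disp71.Pos

namespace Pool.Agent.Disp71

open Matrix Finset

variable {n : ℕ}

/-- complexification -/
noncomputable abbrev cx (A : Matrix (Fin n) (Fin n) ℝ) : Matrix (Fin n) (Fin n) ℂ :=
  A.map (algebraMap ℝ ℂ)

lemma stable_iff (A : Matrix (Fin n) (Fin n) ℝ) :
    IsStable A ↔ ∀ x : ℂ, 0 ≤ x.re → (x • (1 : Matrix (Fin n) (Fin n) ℂ) + cx A).det ≠ 0 := by
  constructor
  · intro h x hx hdet
    obtain ⟨v, hv, hv0⟩ := Matrix.exists_mulVec_eq_zero_iff.mpr hdet
    rw [add_mulVec, smul_mulVec, one_mulVec] at hv0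
    have := h (-x) v hv (by rw [neg_smul]; exact eq_neg_of_add_eq_zero_right hv0)
    simp at this
    linarith
  · intro h μ v hv hμ
    by_contra hcon
    refine h (-μ) (by simpa using not_lt.mp hcon) ?_
    rw [← Matrix.exists_mulVec_eq_zero_iff]
    refine ⟨v, hv, ?_⟩
    rw [add_mulVec, smul_mulVec, one_mulVec, hμ, neg_smul, neg_add_cancel]

/-- no purely imaginary root -/
lemma imag_ne {A : Matrix (Fin n) (Fin n) ℝ} {d : ℕ} (hP : IsP A) (hS : CondS d A)
    (hn : n ≤ 2 * d + 2) (z : Fin n → ℝ) (hz : ∀ i, 0 < z i) (x : ℂ) (hx : x.re = 0) :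
    (x • (1 : Matrix (Fin n) (Fin n) ℂ) + cx (diagonal z * A)).det ≠ 0 := by
  have hx' : x = (x.im : ℂ) * Complex.I := by
    apply Complex.ext <;> simp [hx]
  by_cases hy : x.im = 0
  · have : x = 0 := by rw [hx', hy]; simp
    rw [this, zero_smul, zero_add]
    have h1 : (cx (diagonal z * A)).det = (((diagonal z * A).det : ℝ) : ℂ) := by
      have := RingHom.map_det (algebraMap ℝ ℂ) (diagonal z * A)
      rw [RingHom.mapMatrix_apply] at this
      exact this.symm
    rw [h1, Complex.ofReal_ne_zero, det_mul, det_diagonal]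
    have h2 : A.det = pm A univ := by
      rw [pm]
      have := det_submatrix_equiv_self (Equiv.subtypeUnivEquiv (fun x => Finset.mem_univ x) :
        ((univ : Finset (Fin n)) : Type) ≃ Fin n) A
      rw [← this]
      rfl
    rw [h2]
    exact (mul_pos (Finset.prod_pos fun i _ => hz i) (hP.pm_pos _)).ne'
  · -- x = i y, y ≠ 0
    set y := x.im with hyd
    have hG := G_pos hP hS hn (fun i => |y|⁻¹ * z i) (fun i => mul_pos (by positivity) (hz i))
    rw [det_sq_normSq] at hG
    have hG' : (1 + Complex.I • (cx (diagonal (fun i => |y|⁻¹ * z i) * A))).det ≠ 0 :=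
      Complex.normSq_pos.mp hG
    have hGc : (1 - Complex.I • (cx (diagonal (fun i => |y|⁻¹ * z i) * A))).det ≠ 0 := by
      intro h
      apply hG'
      have := conj_det (diagonal (fun i => |y|⁻¹ * z i) * A)
      have h2 := congrArg (starRingEnd ℂ) this
      rw [Complex.conj_conj] at h2
      rw [← h2]
      have h3 : (1 - Complex.I • (diagonal (fun i => |y|⁻¹ * z i) * A).map (algebraMap ℝ ℂ)).det = 0 := h
      rw [h3, map_zero]
    have hd : cx (diagonal (fun i => |y|⁻¹ * z i) * A) = ((|y|⁻¹ : ℝ) : ℂ) • cx (diagonal z * A) := by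
      ext i j
      simp [diagonal_mul, mul_assoc]
    rw [hd] at hG' hGc
    rcases lt_or_gt_of_ne hy with hneg | hpos
    · -- y < 0, |y| = -y; x = i y; x + ZA = x (1 + (1/x) Z A), 1/x = -i / y = i/|y|
      have h1 : x • (1 : Matrix (Fin n) (Fin n) ℂ) + cx (diagonal z * A) =
          x • (1 + Complex.I • (((|y|⁻¹ : ℝ) : ℂ) • cx (diagonal z * A))) := by
        rw [smul_add, smul_smul, smul_smul]
        have : x * (Complex.I * ((|y|⁻¹ : ℝ) : ℂ)) = 1 := by
          rw [hx', abs_of_neg hneg]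
          have hyc : (y : ℂ) ≠ 0 := by exact_mod_cast hy
          push_cast
          field_simp
          rw [Complex.I_sq]; ring
        rw [← mul_assoc] at this
        rw [this, one_smul]
      rw [h1, det_smul]
      refine mul_ne_zero (pow_ne_zero _ ?_) hG'
      intro h0; apply hy; rw [hyd, h0]; rfl
    · have h1 : x • (1 : Matrix (Fin n) (Fin n) ℂ) + cx (diagonal z * A) =
          x • (1 - Complex.I • (((|y|⁻¹ : ℝ) : ℂ) • cx (diagonal z * A))) := by
        rw [smul_sub, smul_smul, smul_smul]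
        have : x * (Complex.I * ((|y|⁻¹ : ℝ) : ℂ)) = -1 := by
          rw [hx', abs_of_pos hpos]
          have hyc : (y : ℂ) ≠ 0 := by exact_mod_cast hy
          push_cast
          field_simp
          rw [Complex.I_sq]
        rw [← mul_assoc] at this
        rw [this, neg_smul, one_smul, sub_neg_eq_add]
      rw [h1, det_smul]
      refine mul_ne_zero (pow_ne_zero _ ?_) hGc
      intro h0; apply hy; rw [hyd, h0]; rfl

/-- a bound on the roots -/
lemma root_bound {n : ℕ} (M : Matrix (Fin n) (Fin n) ℂ) (x : ℂ)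
    (h : (x • (1 : Matrix (Fin n) (Fin n) ℂ) + M).det = 0) : ‖x‖ ≤ ∑ i, ∑ j, ‖M i j‖ := by
  obtain ⟨v, hv, hv0⟩ := Matrix.exists_mulVec_eq_zero_iff.mpr h
  rw [add_mulVec, smul_mulVec, one_mulVec] at hv0
  obtain ⟨i0, hi0⟩ : ∃ i, v i ≠ 0 := by
    by_contra hcon; push Not at hcon; exact hv (funext hcon)
  obtain ⟨i, -, hi⟩ := Finset.exists_max_image univ (fun i => ‖v i‖) ⟨i0, mem_univ _⟩
  have hvi : 0 < ‖v i‖ := lt_of_lt_of_le (norm_pos_iff.mpr hi0) (hi i0 (mem_univ _))
  have h1 : x * v i = - ∑ j, M i j * v j := by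
    have := congrFun hv0 i
    simp only [Pi.add_apply, Pi.smul_apply, smul_eq_mul, mulVec, dotProduct, Pi.zero_apply] at this
    exact eq_neg_of_add_eq_zero_left this
  have h2 : ‖x‖ * ‖v i‖ ≤ (∑ j, ‖M i j‖) * ‖v i‖ := by
    rw [← norm_mul, h1, norm_neg, Finset.sum_mul]
    refine (norm_sum_le _ _).trans (Finset.sum_le_sum fun j _ => ?_)
    rw [norm_mul]
    exact mul_le_mul_of_nonneg_left (hi j (mem_univ _)) (norm_nonneg _)
  refine (le_of_mul_le_mul_right h2 hvi).trans ?_
  exact Finset.single_le_sum (f := fun i => ∑ j, ‖M i j‖)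
    (fun i _ => Finset.sum_nonneg fun j _ => norm_nonneg _) (mem_univ i)

/-- a near root -/
lemma near_root {n : ℕ} (M : Matrix (Fin n) (Fin n) ℂ) (x : ℂ) (ρ : ℝ) (hρ : 0 < ρ)
    (h : ‖(x • (1 : Matrix (Fin n) (Fin n) ℂ) + M).det‖ < ρ ^ n) :
    ∃ r : ℂ, ‖x - r‖ < ρ ∧ (r • (1 : Matrix (Fin n) (Fin n) ℂ) + M).det = 0 := by
  have hev : ∀ y : ℂ, ((-M).charpoly).eval y = (y • (1 : Matrix (Fin n) (Fin n) ℂ) + M).det := by
    intro y
    rw [eval_charpoly, sub_neg_eq_add]
    congr 2
    ext i j; simp [Matrix.scalar_apply, Matrix.one_apply, Matrix.diagonal_apply]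
  have hsp : (-M).charpoly.Splits := IsAlgClosed.splits _
  have hprod := hsp.eval_eq_prod_roots_of_monic (charpoly_monic _) x
  have hcard : (-M).charpoly.roots.card = n := by
    have := hsp.natDegree_eq_card_roots
    rw [charpoly_natDegree_eq_dim, Fintype.card_fin] at this
    exact this.symm
  by_contra hcon
  push Not at hcon
  have hall : ∀ r ∈ (-M).charpoly.roots, ρ ≤ ‖x - r‖ := by
    intro r hr
    by_contra hlt
    push Not at hlt
    apply hcon r hlt
    rw [← hev]
    exact (Polynomial.mem_roots (charpoly_monic _).ne_zero).mp hr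
  have hge : ρ ^ n ≤ ‖((-M).charpoly).eval x‖ := by
    rw [hprod]
    have : ∀ s : Multiset ℂ, (∀ r ∈ s, ρ ≤ ‖x - r‖) →
        ρ ^ s.card ≤ ‖(s.map (fun a => x - a)).prod‖ := by
      intro s
      induction s using Multiset.induction_on with
      | empty => intro _; simp
      | cons a s ih =>
        intro hs
        rw [Multiset.card_cons, pow_succ', Multiset.map_cons, Multiset.prod_cons, norm_mul]
        exact mul_le_mul (hs a (Multiset.mem_cons_self _ _))
          (ih fun r hr => hs r (Multiset.mem_cons_of_mem hr)) (by positivity) (norm_nonneg _)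
    have h2 := this _ hall
    rwa [hcard] at h2
  rw [hev] at hge
  linarith

end Pool.Agent.Disp71
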